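import Pool.Agent.Lib.MP_688fd0_co.SQ6.Iface

/-! Row CEN of board B1*: the product of an Eulerian circuit of `Γ / N` is central if `N` is abelian (transfer). -/

set_option autoImplicit false

namespace Pool.Agent.Lib.MP_688fd0_co.SQ6

open QuotientGroup

/-- **Row CEN.** -/
theorem cen : CenS := by
  intro Γ _ _ N hN Λ _ q l hab hlen hprod hsurj
  classical
  have := Fintype.ofFinite Λ
  have := Fintype.ofFinite (Γ ⧸ N)
  let _ : CommGroup N :=
    { (inferInstance : Group N) with mul_comm := fun a b => Subtype.ext (hab a.1 a.2 b.1 b.2) }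
  set T : Γ ⧸ N → Γ := Quotient.out with hT
  have hmk : ∀ x : Γ ⧸ N, QuotientGroup.mk' N (T x) = x := fun x => QuotientGroup.out_eq' x
  have hmemN : ∀ g : Γ, QuotientGroup.mk' N g = 1 → g ∈ N := fun g hg =>
    (QuotientGroup.eq_one_iff g).1 hg
  set nn : (Γ ⧸ N) × Λ → N := fun a => ⟨T a.1 * q a.2 * (T (a.1 * QuotientGroup.mk' N (q a.2)))⁻¹, by
    apply hmemN
    rw [map_mul, map_mul, map_inv, hmk, hmk, mul_inv_cancel]⟩ with hnn
  set X : ℕ → Γ ⧸ N := fun i => ((l.take i).map (fun s => QuotientGroup.mk' N (q s))).prod with hX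
  have hXs : ∀ i (h : i < l.length), X (i + 1) = X i * QuotientGroup.mk' N (q l[i]) := by
    intro i h
    simp only [hX]
    rw [List.take_succ_eq_append_getElem h, List.map_append, List.prod_append]
    simp
  have hX0 : X 0 = 1 := by simp [hX]
  have hXn : X l.length = 1 := by
    simp only [hX]
    rw [List.take_length]
    exact hprod
  have hpart : ∀ j ≤ l.length, ((l.take j).map q).prod = (T 1)⁻¹ *
      ((∏ i ∈ Finset.range j, (if h : i < l.length then nn (X i, l[i]) else 1) : N) : Γ) * T (X j) := by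
    intro j hj
    induction j with
    | zero => simp [hX0]
    | succ j ih =>
      have hj' : j < l.length := by omega
      rw [List.take_succ_eq_append_getElem hj', List.map_append, List.prod_append, ih (by omega),
        Finset.prod_range_succ, dif_pos hj']
      have e1 : ((nn (X j, l[j]) : N) : Γ) = T (X j) * q l[j] * (T (X (j + 1)))⁻¹ := by
        simp only [hnn]
        rw [hXs j hj']
      rw [Subgroup.coe_mul, e1]
      simp only [List.map_cons, List.map_nil, List.prod_cons, List.prod_nil, mul_one]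
      group
  set P : N := ∏ i ∈ Finset.range l.length, (if h : i < l.length then nn (X i, l[i]) else 1) with hP
  have ht : T 1 ∈ N := hmemN _ (hmk 1)
  have hlP : (l.map q).prod = (P : Γ) := by
    have h1 := hpart l.length le_rfl
    rw [List.take_length, hXn] at h1
    rw [h1, mul_assoc, ← hab _ ht _ P.2, inv_mul_cancel_left]
  have hbij : Function.Bijective (fun i : Fin l.length => ((X i, l[i]) : (Γ ⧸ N) × Λ)) := by
    rw [Fintype.bijective_iff_surjective_and_card]
    refine ⟨fun a => ?_, ?_⟩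
    · obtain ⟨i, hi, h1, h2⟩ := hsurj a.1 a.2
      exact ⟨⟨i, hi⟩, Prod.ext h2 h1⟩
    · rw [Fintype.card_fin, hlen, Fintype.card_prod, Nat.card_eq_fintype_card, Nat.card_eq_fintype_card]
  have hPall : P = ∏ a : (Γ ⧸ N) × Λ, nn a := by
    rw [hP, Finset.prod_range]
    rw [← hbij.prod_comp nn]
    refine Finset.prod_congr rfl fun i _ => ?_
    rw [dif_pos i.2]
    rfl
  refine ⟨?_, fun g => ?_⟩
  · rw [hlP]
    exact P.2
  rw [hlP]
  set m : Γ ⧸ N → N := fun x => ⟨g * T x * (T (QuotientGroup.mk' N g * x))⁻¹, by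
    apply hmemN
    rw [map_mul, map_mul, map_inv, hmk, hmk, mul_inv_cancel]⟩ with hm
  have hconj : ∀ a : (Γ ⧸ N) × Λ, MulAut.conjNormal g (nn a)
      = m a.1 * nn (QuotientGroup.mk' N g * a.1, a.2) * (m (a.1 * QuotientGroup.mk' N (q a.2)))⁻¹ := by
    intro a
    apply Subtype.ext
    rw [MulAut.conjNormal_apply]
    simp only [hnn, hm, Subgroup.coe_mul, Subgroup.coe_inv]
    rw [← mul_assoc (QuotientGroup.mk' N g) a.1]
    group
  have hP2 : MulAut.conjNormal g P = P := by
    rw [hPall, map_prod, Finset.prod_congr rfl fun a _ => hconj a, Finset.prod_mul_distrib,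
      Finset.prod_mul_distrib, Finset.prod_inv_distrib]
    have e1 : ∏ a : (Γ ⧸ N) × Λ, nn (QuotientGroup.mk' N g * a.1, a.2) = ∏ a, nn a :=
      ((Equiv.mulLeft (QuotientGroup.mk' N g)).prodCongr (Equiv.refl Λ)).prod_comp nn
    have e2 : ∏ a : (Γ ⧸ N) × Λ, m (a.1 * QuotientGroup.mk' N (q a.2)) = ∏ a : (Γ ⧸ N) × Λ, m a.1 := by
      rw [Fintype.prod_prod_type_right, Fintype.prod_prod_type_right]
      refine Finset.prod_congr rfl fun s _ => ?_
      exact Equiv.prod_comp (Equiv.mulRight (QuotientGroup.mk' N (q s))) m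
    rw [e1, e2, mul_comm (∏ a : (Γ ⧸ N) × Λ, m a.1), mul_inv_cancel_right]
  have h3 := congrArg (Subtype.val) hP2
  rw [MulAut.conjNormal_apply, mul_inv_eq_iff_eq_mul] at h3
  exact h3

end Pool.Agent.Lib.MP_688fd0_co.SQ6
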