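import Pool.Agent.Lib.MP_688fd0_co.SQ6.Iface
import Pool.Agent.Lib.MP_688fd0_co.HF.MERGE

/-! Row EUL of board B1*: Eulerian circuits of Cayley digraphs. -/

set_option autoImplicit false

namespace Pool.Agent.Lib.MP_688fd0_co.SQ6.Eul

open Equiv Equiv.Perm

variable {K Λ : Type} [Group K] {q : Λ → K}

/-- `φ` maps each arc to an arc which starts at its head. -/
def Nx (q : Λ → K) (φ : Perm (K × Λ)) : Prop := ∀ a, (φ a).1 = a.1 * q a.2

/-- the straight continuation -/
def base (q : Λ → K) : Perm (K × Λ) where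
  toFun a := (a.1 * q a.2, a.2)
  invFun a := (a.1 * (q a.2)⁻¹, a.2)
  left_inv a := by simp
  right_inv a := by simp

theorem nx_base : Nx q (base q) := fun _ => rfl

theorem nx_swap [DecidableEq (K × Λ)] {φ : Perm (K × Λ)} (h : Nx q φ) {u v : K × Λ}
    (huv : (φ u).1 = (φ v).1) : Nx q (φ * Equiv.swap u v) := by
  intro a
  rw [Perm.mul_apply]
  by_cases hu : a = u
  · subst hu
    rw [Equiv.swap_apply_left, ← huv, h]
  · by_cases hv : a = v
    · subst hv
      rw [Equiv.swap_apply_right, huv, h]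
    · rw [Equiv.swap_apply_of_ne_of_ne hu hv, h]

theorem all_of_touched [Finite K] {φ : Perm (K × Λ)} (h : Nx q φ) (hcl : Subgroup.closure (Set.range q) = ⊤)
    (e : K × Λ) (hT : ∀ x s t, φ.SameCycle e (x, s) → φ.SameCycle e (x, t)) (a : K × Λ) :
    φ.SameCycle e a := by
  classical
  set W : Set K := {x | ∃ s, φ.SameCycle e (x, s)} with hW
  have hmul : ∀ x ∈ W, ∀ s, x * q s ∈ W := by
    rintro x ⟨t, ht⟩ s
    have h1 := hT x t s ht
    refine ⟨(φ (x, s)).2, ?_⟩
    have h2 : ((x * q s, (φ (x, s)).2) : K × Λ) = φ (x, s) := by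
      rw [← h (x, s)]
    rw [h2]
    exact (sameCycle_apply_right).2 h1
  have hall : ∀ g : K, ∀ x ∈ W, x * g ∈ W := by
    intro g
    have hg : g ∈ Subgroup.closure (Set.range q) := by rw [hcl]; exact Subgroup.mem_top g
    have hg' : g ∈ (Subgroup.closure (Set.range q)).toSubmonoid := hg
    rw [Subgroup.closure_toSubmonoid_of_finite] at hg'
    clear hg
    induction hg' using Submonoid.closure_induction with
    | mem y hy =>
      obtain ⟨s, rfl⟩ := hy
      exact fun x hx => hmul x hx s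
    | one =>
      intro x hx
      rwa [mul_one]
    | mul y z _ _ h1 h2 =>
      intro x hx
      rw [← mul_assoc]
      exact h2 _ (h1 _ hx)
  have he : e.1 ∈ W := ⟨e.2, SameCycle.refl _ _⟩
  have ha : a.1 ∈ W := by
    have := hall (e.1⁻¹ * a.1) e.1 he
    rwa [mul_inv_cancel_left] at this
  obtain ⟨s, hs⟩ := ha
  exact hT a.1 s a.2 hs

theorem exists_one [Fintype K] [Fintype Λ] (hcl : Subgroup.closure (Set.range q) = ⊤) (e : K × Λ) :
    ∃ φ : Perm (K × Λ), Nx q φ ∧ ∀ a, φ.SameCycle e a := by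
  classical
  set P : ℕ → Prop := fun n => ∃ φ : Perm (K × Λ), Nx q φ ∧ n = (Finset.univ.filter fun a => φ.SameCycle e a).card
    with hP
  have hex : ∃ n, P n := ⟨_, base q, nx_base, rfl⟩
  have hbd : ∀ n, P n → n ≤ Fintype.card (K × Λ) := by
    rintro n ⟨φ, _, rfl⟩
    exact Finset.card_le_univ _
  obtain ⟨n, hn, hmax⟩ : ∃ n, P n ∧ ∀ m, P m → m ≤ n := by
    obtain ⟨n0, hn0⟩ := hex
    exact ⟨Nat.findGreatest P (Fintype.card (K × Λ)), Nat.findGreatest_spec (hbd _ hn0) hn0,
      fun m hm => Nat.le_findGreatest (hbd m hm) hm⟩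
  obtain ⟨φ, hφ, hcard⟩ := hn
  refine ⟨φ, hφ, all_of_touched hφ hcl e ?_⟩
  intro x s t hs
  by_contra ht
  set u := φ⁻¹ (x, s) with hu
  set v := φ⁻¹ (x, t) with hv
  have hu1 : φ u = (x, s) := by rw [hu]; exact φ.apply_symm_apply _
  have hv1 : φ v = (x, t) := by rw [hv]; exact φ.apply_symm_apply _
  have hφ' : Nx q (φ * Equiv.swap u v) := nx_swap hφ (by rw [hu1, hv1])
  have heu : φ.SameCycle e u := by
    rw [← hu1] at hs
    exact (sameCycle_apply_right).1 hs
  have hev : ¬ φ.SameCycle e v := by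
    rw [← hv1] at ht
    exact fun h => ht ((sameCycle_apply_right).2 h)
  have huv : ¬ φ.SameCycle u v := fun h => hev (heu.trans h)
  have key := (HF.merge).swap φ u v huv
  have hlt : (Finset.univ.filter fun a => φ.SameCycle e a).card
      < (Finset.univ.filter fun a => (φ * Equiv.swap u v).SameCycle e a).card := by
    apply Finset.card_lt_card
    rw [Finset.ssubset_iff_of_subset]
    · refine ⟨v, ?_, ?_⟩
      · rw [Finset.mem_filter]
        exact ⟨Finset.mem_univ _, (key e v).2 (Or.inr ⟨Or.inl heu, Or.inr (SameCycle.refl _ _)⟩)⟩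
      · rw [Finset.mem_filter]
        exact fun h => hev h.2
    · intro a ha
      rw [Finset.mem_filter] at ha ⊢
      exact ⟨ha.1, (key e a).2 (Or.inl ha.2)⟩
  have := hmax _ ⟨φ * Equiv.swap u v, hφ', rfl⟩
  omega

end Pool.Agent.Lib.MP_688fd0_co.SQ6.Eul

namespace Pool.Agent.Lib.MP_688fd0_co.SQ6

open Equiv Equiv.Perm Function

/-- **Row EUL.** -/
theorem eul : EulS := by
  intro K _ _ Λ _ q hΛ hcl
  classical
  have := Fintype.ofFinite K
  have := Fintype.ofFinite Λ
  obtain ⟨s0⟩ := hΛ
  set e : K × Λ := (1, s0) with he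
  obtain ⟨φ, hφ, hall⟩ := Eul.exists_one (q := q) hcl e
  have hper : minimalPeriod φ e = Fintype.card (K × Λ) := by
    have hb : Function.Bijective fun i : Fin (minimalPeriod φ e) => φ^[(i : ℕ)] e := by
      constructor
      · intro i j hij
        exact Fin.ext (iterate_injOn_Iio_minimalPeriod i.2 j.2 hij)
      · intro y
        obtain ⟨i, hi⟩ := (hall y).exists_nat_pow_eq
        have hpos : 0 < minimalPeriod φ e :=
          minimalPeriod_pos_of_mem_periodicPts (φ.injective.mem_periodicPts e)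
        refine ⟨⟨i % minimalPeriod φ e, Nat.mod_lt _ hpos⟩, ?_⟩
        simp only
        rw [iterate_mod_minimalPeriod_eq, Equiv.Perm.iterate_eq_pow, hi]
    simpa using Fintype.card_of_bijective hb
  set n := Fintype.card (K × Λ) with hn
  have hprod : ∀ j ≤ n, (((List.ofFn fun i : Fin n => (φ^[(i : ℕ)] e).2).take j).map q).prod = (φ^[j] e).1 := by
    intro j hj
    induction j with
    | zero => simp [he]
    | succ j ih =>
      have hj' : j < (List.ofFn fun i : Fin n => (φ^[(i : ℕ)] e).2).length := by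
        rw [List.length_ofFn]
        omega
      rw [List.take_succ_eq_append_getElem hj', List.map_append, List.prod_append, ih (by omega)]
      rw [iterate_succ_apply', hφ]
      simp
  refine ⟨List.ofFn fun i : Fin n => (φ^[(i : ℕ)] e).2, ?_, ?_, ?_⟩
  · rw [List.length_ofFn, hn, Fintype.card_prod, Nat.card_eq_fintype_card, Nat.card_eq_fintype_card]
  · have h1 := hprod n le_rfl
    rw [List.take_of_length_le (by rw [List.length_ofFn])] at h1
    rw [h1, ← hper, iterate_minimalPeriod, he]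
  · intro x s
    obtain ⟨i, hi⟩ := (hall (x, s)).exists_nat_pow_eq
    have hpos : 0 < minimalPeriod φ e :=
      minimalPeriod_pos_of_mem_periodicPts (φ.injective.mem_periodicPts e)
    have hi' : φ^[i % n] e = (x, s) := by
      rw [← hper, iterate_mod_minimalPeriod_eq, Equiv.Perm.iterate_eq_pow, hi]
    have hlt : i % n < n := Nat.mod_lt _ (by rw [← hper]; exact hpos)
    refine ⟨i % n, by rw [List.length_ofFn]; exact hlt, ?_, ?_⟩
    · rw [List.getElem_ofFn]
      simp only
      rw [hi']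
    · rw [hprod _ hlt.le, hi']

end Pool.Agent.Lib.MP_688fd0_co.SQ6
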