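import Pool.Agent.Lib.MP_688fd0_co.SQ6.Quad

/-!
Row FLIP: from `H / E` to `H`. A flip is the rotation by `v` on `X = E x₀ ⟨v⟩`, repeated `ord(v mod E)` times.
-/

set_option autoImplicit false

namespace Pool.Agent.Lib.MP_688fd0_co.SQ6.Flip

open Pool.Agent.Lib.MP_688fd0_co.SQ6 Pool.Agent.Lib.MP_688fd0_co.SQ6.Quad

variable {H : Type} [Group H]

/-- `F` commutes with the left multiplications by the elements of `E` and induces `R'` on `H / E`. -/
structure Gd (E : Subgroup H) [E.Normal] (R' : Equiv.Perm (H ⧸ E)) (F : Equiv.Perm H) : Prop where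
  eq : ∀ c ∈ E, ∀ x, F (c * x) = c * F x
  cov : ∀ x, QuotientGroup.mk' E (F x) = R' (QuotientGroup.mk' E x)

section

variable {E : Subgroup H} [E.Normal] {R' : Equiv.Perm (H ⧸ E)} {F : Equiv.Perm H}

theorem Gd.pow_eq (h : Gd E R' F) (i : ℕ) : ∀ c ∈ E, ∀ x, (F ^ i) (c * x) = c * (F ^ i) x := by
  induction i with
  | zero => intro c _ x; simp
  | succ i ih =>
    intro c hc x
    rw [pow_succ', Equiv.Perm.mul_apply, Equiv.Perm.mul_apply, ih c hc x, h.eq c hc]

theorem Gd.pow_cov (h : Gd E R' F) (i : ℕ) (x : H) :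
    QuotientGroup.mk' E ((F ^ i) x) = (R' ^ i) (QuotientGroup.mk' E x) := by
  induction i with
  | zero => simp
  | succ i ih =>
    rw [pow_succ', Equiv.Perm.mul_apply, pow_succ', Equiv.Perm.mul_apply, h.cov, ih]

open Classical in
/-- The number of visits of `X` in the first `i` steps. -/
noncomputable def cnt (F : Equiv.Perm H) (X : Set H) (γ : H) (i : ℕ) : ℕ :=
  ((Finset.range i).filter (fun j => (F ^ j) γ ∈ X)).card

theorem cnt_succ_mem {F : Equiv.Perm H} {X : Set H} {γ : H} {i : ℕ} (h : (F ^ i) γ ∈ X) :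
    cnt F X γ (i + 1) = cnt F X γ i + 1 := by
  classical
  unfold cnt
  rw [Finset.range_add_one, Finset.filter_insert, if_pos h, Finset.card_insert_of_notMem]
  simp

theorem cnt_succ_notMem {F : Equiv.Perm H} {X : Set H} {γ : H} {i : ℕ} (h : (F ^ i) γ ∉ X) :
    cnt F X γ (i + 1) = cnt F X γ i := by
  classical
  unfold cnt
  rw [Finset.range_add_one, Finset.filter_insert, if_neg h]

open Classical in
theorem iter (hF : Gd E R' F) {g : Equiv.Perm H} {c₀ : H} (hc : c₀ ∈ E) {X : Set H}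
    (hX : ∀ c ∈ E, ∀ x, c * x ∈ X ↔ x ∈ X) (hg : ∀ x, g x = if x ∈ X then c₀ * x else x) (γ : H) (i : ℕ) :
    ((F * g) ^ i) γ = c₀ ^ cnt F X γ i * (F ^ i) γ := by
  induction i with
  | zero => simp [cnt]
  | succ i ih =>
    have hcp : c₀ ^ cnt F X γ i ∈ E := E.pow_mem hc _
    rw [pow_succ', Equiv.Perm.mul_apply, ih, Equiv.Perm.mul_apply, hg]
    by_cases h : (F ^ i) γ ∈ X
    · rw [if_pos ((hX _ hcp _).2 h), cnt_succ_mem h, hF.eq c₀ hc, hF.eq _ hcp, pow_succ' F, Equiv.Perm.mul_apply,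
        pow_succ', mul_assoc]
    · rw [if_neg (fun h' => h ((hX _ hcp _).1 h')), cnt_succ_notMem h, hF.eq _ hcp, pow_succ' F,
        Equiv.Perm.mul_apply]

end

open Classical in
theorem rot_pow (v : H) (X : Set H) (h : Cl v X) (i : ℕ) (x : H) :
    ((rot v X h) ^ i) x = if x ∈ X then x * v ^ i else x := by
  have hcl : ∀ i : ℕ, ∀ x, x ∈ X → x * v ^ i ∈ X := by
    intro i
    induction i with
    | zero => intro x hx; simpa using hx
    | succ i ih =>
      intro x hx
      rw [pow_succ, ← mul_assoc]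
      exact (h _).2 (ih x hx)
  induction i with
  | zero => simp
  | succ i ih =>
    rw [pow_succ', Equiv.Perm.mul_apply, ih]
    by_cases hx : x ∈ X
    · rw [if_pos hx, if_pos hx]
      show (if x * v ^ i ∈ X then x * v ^ i * v else x * v ^ i) = _
      rw [if_pos (hcl i x hx), mul_assoc, ← pow_succ]
    · rw [if_neg hx, if_neg hx]
      show (if x ∈ X then x * v else x) = x
      rw [if_neg hx]

theorem Mv_pow {V : Set H} {v : H} (hv : v ∈ V) (X : Set H) (h : Cl v X) (i : ℕ) : Mv V i ((rot v X h) ^ i) := by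
  refine ⟨List.replicate i (rot v X h), by simp, ?_, by simp⟩
  intro g hg
  rw [List.mem_replicate] at hg
  exact ⟨v, hv, X, h, hg.2⟩

/-- The length of the orbit of `γ` modulo `E`. -/
noncomputable def ell {E : Subgroup H} [E.Normal] (R' : Equiv.Perm (H ⧸ E)) (γ : H) : ℕ :=
  Function.minimalPeriod R' (QuotientGroup.mk' E γ)

/-- The volume. -/
noncomputable def vol {E : Subgroup H} [E.Normal] (R' : Equiv.Perm (H ⧸ E)) (F : Equiv.Perm H) (γ : H) : H :=
  (F ^ ell R' γ) γ * γ⁻¹

section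

variable [Finite H] {E : Subgroup H} [E.Normal] {R' : Equiv.Perm (H ⧸ E)} {F : Equiv.Perm H}

theorem mk_eq_one {x : H} : QuotientGroup.mk' E x = 1 ↔ x ∈ E := QuotientGroup.eq_one_iff x

theorem ell_pos (R' : Equiv.Perm (H ⧸ E)) (γ : H) : 0 < ell R' γ := by
  refine Function.IsPeriodicPt.minimalPeriod_pos (n := orderOf R') (orderOf_pos R') ?_
  show R'^[orderOf R'] _ = _
  rw [Equiv.Perm.iterate_eq_pow, pow_orderOf_eq_one]
  rfl

theorem ell_pow (R' : Equiv.Perm (H ⧸ E)) (γ : H) :
    (R' ^ ell R' γ) (QuotientGroup.mk' E γ) = QuotientGroup.mk' E γ := by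
  have := Function.iterate_minimalPeriod (f := R') (x := QuotientGroup.mk' E γ)
  rw [Equiv.Perm.iterate_eq_pow] at this
  exact this

theorem vol_mem (h : Gd E R' F) (γ : H) : vol R' F γ ∈ E := by
  rw [← mk_eq_one, vol, map_mul, map_inv, h.pow_cov, ell_pow, mul_inv_cancel]

theorem main (V : Set H) (ν n : ℕ) (R : Equiv.Perm H) (hcomm : ∀ c ∈ E, ∀ d ∈ E, c * d = d * c)
    (hsq : Squarefree (Nat.card E)) (hord : ∀ v ∈ V, orderOf (QuotientGroup.mk' E v) ≤ ν)
    (hp : ∀ p ∈ (Nat.card E).primeFactors, ν < p ∧ n < p ∧ ∃ v ∈ V, p ∣ orderOf v) (hR : Gd E R' R) :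
    ∀ L : List (ℕ × H), L.length ≤ n → (∀ c ∈ L, c.1 ∈ (Nat.card E).primeFactors) →
      ∃ f, Mv V (L.length * (n * ν)) f ∧ Gd E R' (R * f) ∧
        ∀ c ∈ L, (vol R' (R * f) c.2) ^ (Nat.card E / c.1) ≠ 1 := by
  classical
  intro L
  induction L with
  | nil =>
    intro _ _
    refine ⟨1, ⟨[], by simp, by simp, by simp⟩, by rwa [mul_one], by simp⟩
  | cons c₁ L ih =>
    obtain ⟨p₀, γ₀⟩ := c₁
    intro hL hLp
    rw [List.length_cons] at hL
    obtain ⟨f, f1, f2, f3⟩ := ih (by omega) (fun c hc => hLp c (List.mem_cons_of_mem _ hc))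
    have hp₀ : p₀ ∈ (Nat.card E).primeFactors := hLp (p₀, γ₀) (List.mem_cons_self ..)
    have pp : p₀.Prime := Nat.prime_of_mem_primeFactors hp₀
    obtain ⟨hν, hn, v, hv, hpv⟩ := hp p₀ hp₀
    obtain ⟨F, hF⟩ : ∃ F, F = R * f := ⟨_, rfl⟩
    rw [← hF] at f2 f3
    set m := orderOf (QuotientGroup.mk' E v) with hm
    have hm0 : 0 < m := orderOf_pos _
    have hmν : m ≤ ν := hord v hv
    set X : Set H := {x | ∃ e ∈ E, ∃ j : ℤ, x = e * γ₀ * v ^ j} with hX
    have hXE : ∀ c ∈ E, ∀ x, c * x ∈ X ↔ x ∈ X := by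
      intro c hc x
      constructor
      · rintro ⟨e, he, j, h⟩
        refine ⟨c⁻¹ * e, E.mul_mem (E.inv_mem hc) he, j, ?_⟩
        calc x = c⁻¹ * (c * x) := by group
          _ = _ := by rw [h]; group
      · rintro ⟨e, he, j, rfl⟩
        exact ⟨c * e, E.mul_mem hc he, j, by group⟩
    have hXv : Cl v X := by
      intro x
      constructor
      · rintro ⟨e, he, j, h⟩
        refine ⟨e, he, j - 1, ?_⟩
        calc x = x * v * v⁻¹ := by group
          _ = _ := by rw [h]; group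
      · rintro ⟨e, he, j, rfl⟩
        exact ⟨e, he, j + 1, by group⟩
    set c₀ := γ₀ * v ^ m * γ₀⁻¹ with hc₀
    have hc₀E : c₀ ∈ E := by
      have : v ^ m ∈ E := by
        rw [← mk_eq_one, map_pow, hm, pow_orderOf_eq_one]
      exact (inferInstance : E.Normal).conj_mem _ this γ₀
    have hc₀p : ∀ t : ℕ, c₀ ^ t = γ₀ * v ^ (m * t) * γ₀⁻¹ := by
      intro t
      rw [hc₀, conj_pow, pow_mul]
    have hgt : ∀ (t : ℕ) (x : H), ((rot v X hXv) ^ (m * t)) x = if x ∈ X then c₀ ^ t * x else x := by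
      intro t x
      rw [rot_pow]
      by_cases hx : x ∈ X
      · rw [if_pos hx, if_pos hx]
        obtain ⟨e, he, j, rfl⟩ := hx
        have e1 := hcomm (c₀ ^ t) (E.pow_mem hc₀E t) e he
        calc e * γ₀ * v ^ j * v ^ (m * t) = e * (γ₀ * v ^ (m * t) * γ₀⁻¹) * γ₀ * v ^ j := by
              have : v ^ j * v ^ (m * t) = v ^ (m * t) * v ^ j := by
                rw [← zpow_natCast, ← zpow_add, ← zpow_add, add_comm]
              calc e * γ₀ * v ^ j * v ^ (m * t) = e * γ₀ * (v ^ j * v ^ (m * t)) := by group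
                _ = _ := by rw [this]; group
          _ = e * c₀ ^ t * γ₀ * v ^ j := by rw [hc₀p]
          _ = c₀ ^ t * e * γ₀ * v ^ j := by rw [e1]
          _ = _ := by group
      · rw [if_neg hx, if_neg hx]
    have hGd : ∀ t : ℕ, Gd E R' (F * (rot v X hXv) ^ (m * t)) := by
      intro t
      constructor
      · intro c hc x
        rw [Equiv.Perm.mul_apply, Equiv.Perm.mul_apply, hgt, hgt]
        by_cases hx : x ∈ X
        · rw [if_pos ((hXE c hc x).2 hx), if_pos hx]
          have e1 := hcomm (c₀ ^ t) (E.pow_mem hc₀E t) c hc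
          have e2 : c₀ ^ t * (c * x) = c * (c₀ ^ t * x) := by
            rw [← mul_assoc, e1, mul_assoc]
          rw [e2, f2.eq c hc]
        · rw [if_neg (fun h => hx ((hXE c hc x).1 h)), if_neg hx, f2.eq c hc]
      · intro x
        rw [Equiv.Perm.mul_apply, hgt]
        by_cases hx : x ∈ X
        · rw [if_pos hx, f2.cov, map_mul, mk_eq_one.2 (E.pow_mem hc₀E t), one_mul]
        · rw [if_neg hx, f2.cov]
    -- the volumes
    have hvol : ∀ (t : ℕ) (γ : H), vol R' (F * (rot v X hXv) ^ (m * t)) γ =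
        c₀ ^ (t * cnt F X γ (ell R' γ)) * vol R' F γ := by
      intro t γ
      unfold vol
      rw [iter f2 (E.pow_mem hc₀E t) hXE (hgt t), ← pow_mul, mul_assoc]
    have hvt : ∀ (t : ℕ) (γ : H) (e : ℕ), (vol R' (F * (rot v X hXv) ^ (m * t)) γ) ^ e =
        (c₀ ^ (cnt F X γ (ell R' γ) * e)) ^ t * (vol R' F γ) ^ e := by
      intro t γ e
      have hc : Commute (c₀ ^ (t * cnt F X γ (ell R' γ))) (vol R' F γ) :=
        hcomm _ (E.pow_mem hc₀E _) _ (vol_mem f2 γ)
      rw [hvol, hc.mul_pow, ← pow_mul, ← pow_mul]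
      congr 2
      ring
    have hcard : ∀ c ∈ E, c ^ Nat.card E = 1 := by
      intro c hc
      calc c ^ Nat.card E = (((⟨c, hc⟩ : E) ^ Nat.card E : E) : H) := rfl
        _ = 1 := by rw [pow_card_eq_one']; rfl
    -- the new condition
    have hnew : c₀ ^ (cnt F X γ₀ (ell R' γ₀) * (Nat.card E / p₀)) ≠ 1 := by
      intro h1
      have h2 : v ^ (m * (cnt F X γ₀ (ell R' γ₀) * (Nat.card E / p₀))) = 1 := by
        rw [hc₀p] at h1
        calc v ^ (m * (cnt F X γ₀ (ell R' γ₀) * (Nat.card E / p₀)))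
            = γ₀⁻¹ * (γ₀ * v ^ (m * (cnt F X γ₀ (ell R' γ₀) * (Nat.card E / p₀))) * γ₀⁻¹) * γ₀ := by group
          _ = 1 := by rw [h1]; group
      have h3 : p₀ ∣ m * (cnt F X γ₀ (ell R' γ₀) * (Nat.card E / p₀)) := hpv.trans (orderOf_dvd_of_pow_eq_one h2)
      have hN0 : 0 < cnt F X γ₀ (ell R' γ₀) := by
        unfold cnt
        refine Finset.card_pos.2 ⟨0, ?_⟩
        rw [Finset.mem_filter, Finset.mem_range]
        exact ⟨ell_pos R' γ₀, ⟨1, E.one_mem, 0, by simp⟩⟩
      have hNν : cnt F X γ₀ (ell R' γ₀) ≤ m := by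
        unfold cnt
        have h4 : ((Finset.range m).image
            (fun i => QuotientGroup.mk' E γ₀ * (QuotientGroup.mk' E v) ^ i)).card ≤ m :=
          (Finset.card_image_le).trans (by simp)
        refine le_trans (Finset.card_le_card_of_injOn (fun j => QuotientGroup.mk' E ((F ^ j) γ₀)) ?_ ?_) h4
        · intro j hj
          rw [Finset.coe_filter, Set.mem_ofPred_eq] at hj
          obtain ⟨-, e, he, z, hz⟩ := hj
          rw [Finset.coe_image, Set.mem_image]
          have h5 : (QuotientGroup.mk' E v) ^ z ∈ Subgroup.zpowers (QuotientGroup.mk' E v) := ⟨z, rfl⟩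
          rw [mem_zpowers_iff_mem_range_orderOf, Finset.mem_image] at h5
          obtain ⟨i, hi, hi'⟩ := h5
          refine ⟨i, hi, ?_⟩
          show QuotientGroup.mk' E γ₀ * (QuotientGroup.mk' E v) ^ i = QuotientGroup.mk' E ((F ^ j) γ₀)
          have hi'' : (QuotientGroup.mk' E v) ^ i = (QuotientGroup.mk' E v) ^ z := hi'
          rw [hz, map_mul, map_mul, mk_eq_one.2 he, one_mul, map_zpow, hi'']
        · intro i hi j hj hij
          rw [Finset.coe_filter, Set.mem_ofPred_eq, Finset.mem_range] at hi hj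
          have hij' : QuotientGroup.mk' E ((F ^ i) γ₀) = QuotientGroup.mk' E ((F ^ j) γ₀) := hij
          rw [f2.pow_cov, f2.pow_cov] at hij'
          refine Function.iterate_injOn_Iio_minimalPeriod (f := R') (x := QuotientGroup.mk' E γ₀) hi.1 hj.1 ?_
          show R'^[i] _ = R'^[j] _
          rw [Equiv.Perm.iterate_eq_pow, Equiv.Perm.iterate_eq_pow]
          exact hij'
      rcases pp.dvd_mul.1 h3 with h4 | h4
      · exact absurd (Nat.le_of_dvd hm0 h4) (by omega)
      · rcases pp.dvd_mul.1 h4 with h5 | h5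
        · exact absurd (Nat.le_of_dvd hN0 h5) (by omega)
        · have h6 : p₀ * p₀ ∣ Nat.card E := by
            obtain ⟨w, hw⟩ := h5
            have h7 : p₀ * (Nat.card E / p₀) = Nat.card E := Nat.mul_div_cancel' (Nat.dvd_of_mem_primeFactors hp₀)
            exact ⟨w, by rw [← h7, hw]; ring⟩
          exact pp.one_lt.ne' (Nat.isUnit_iff.1 (hsq p₀ h6))
    -- a good multiplicity
    have key : ∃ t, t ≤ n ∧ ∀ c ∈ (p₀, γ₀) :: L,
        (vol R' (F * (rot v X hXv) ^ (m * t)) c.2) ^ (Nat.card E / c.1) ≠ 1 := by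
      by_contra hcon
      push Not at hcon
      have hcon' : ∀ t : ℕ, ∃ c : ℕ × H, t ≤ n → (c ∈ (p₀, γ₀) :: L ∧
          (vol R' (F * (rot v X hXv) ^ (m * t)) c.2) ^ (Nat.card E / c.1) = 1) := by
        intro t
        by_cases ht : t ≤ n
        · obtain ⟨c, h1, h2⟩ := hcon t ht
          exact ⟨c, fun _ => ⟨h1, h2⟩⟩
        · exact ⟨(p₀, γ₀), fun h => absurd h ht⟩
      choose ch hch using hcon'
      obtain ⟨t₁, ht₁, t₂, ht₂, hne, heq⟩ := Finset.exists_ne_map_eq_of_card_lt_of_maps_to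
        (s := Finset.range (n + 1)) (t := ((p₀, γ₀) :: L).toFinset) (f := ch) (by
          rw [Finset.card_range]
          have := List.toFinset_card_le ((p₀, γ₀) :: L)
          rw [List.length_cons] at this
          omega) (by
          intro t ht
          rw [Finset.coe_range, Set.mem_Iio] at ht
          have := (hch t (by omega)).1
          rw [Finset.mem_coe, List.mem_toFinset]
          exact this)
      rw [Finset.mem_range] at ht₁ ht₂
      -- two bad multiplicities for the same condition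
      have two : ∀ (c : ℕ × H) (s t : ℕ), s < t → t ≤ n → c ∈ (p₀, γ₀) :: L →
          (vol R' (F * (rot v X hXv) ^ (m * s)) c.2) ^ (Nat.card E / c.1) = 1 →
          (vol R' (F * (rot v X hXv) ^ (m * t)) c.2) ^ (Nat.card E / c.1) = 1 → False := by
        intro c s t hst ht hc h1 h2
        have hcp := hLp c hc
        have cp : c.1.Prime := Nat.prime_of_mem_primeFactors hcp
        rw [hvt] at h1 h2
        set d := c₀ ^ (cnt F X c.2 (ell R' c.2) * (Nat.card E / c.1)) with hd
        have h3 : d ^ s = d ^ t := by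
          have : d ^ s * (vol R' F c.2) ^ (Nat.card E / c.1) =
              d ^ t * (vol R' F c.2) ^ (Nat.card E / c.1) := by rw [h1, h2]
          exact mul_right_cancel this
        have h4 : d ^ (t - s) = 1 := by
          have : d ^ s * d ^ (t - s) = d ^ s := by
            rw [← pow_add, Nat.add_sub_cancel' hst.le, h3]
          exact mul_eq_left.1 this
        have h5 : d ^ c.1 = 1 := by
          have h7 : Nat.card E / c.1 * c.1 = Nat.card E := Nat.div_mul_cancel (Nat.dvd_of_mem_primeFactors hcp)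
          rw [hd, ← pow_mul, mul_assoc, h7, pow_mul]
          exact hcard _ (E.pow_mem hc₀E _)
        have h6 : d = 1 := by
          have h8 := orderOf_dvd_of_pow_eq_one h4
          have h9 := orderOf_dvd_of_pow_eq_one h5
          rcases (Nat.dvd_prime cp).1 h9 with h10 | h10
          · exact orderOf_eq_one_iff.1 h10
          · exfalso
            rw [h10] at h8
            have := Nat.le_of_dvd (by omega) h8
            have h11 := (hp c.1 hcp).2.1
            omega
        rw [h6, one_pow, one_mul] at h1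
        rcases List.mem_cons.1 hc with hc' | hc'
        · rw [hc'] at hd
          exact hnew (hd.symm.trans h6)
        · exact f3 c hc' h1
      rcases lt_or_gt_of_ne hne with h | h
      · obtain ⟨a1, a2⟩ := hch t₁ (by omega)
        obtain ⟨b1, b2⟩ := hch t₂ (by omega)
        rw [← heq] at b2
        exact two (ch t₁) t₁ t₂ h (by omega) a1 a2 b2
      · obtain ⟨a1, a2⟩ := hch t₁ (by omega)
        obtain ⟨b1, b2⟩ := hch t₂ (by omega)
        rw [← heq] at b2
        exact two (ch t₁) t₂ t₁ h (by omega) a1 b2 a2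
    obtain ⟨t, ht, hgood⟩ := key
    refine ⟨f * (rot v X hXv) ^ (m * t), ?_, ?_, ?_⟩
    · refine Mv.mono (Mv.mul f1 (Mv_pow hv X hXv (m * t))) ?_
      rw [List.length_cons]
      have : m * t ≤ n * ν := by
        calc m * t ≤ ν * n := Nat.mul_le_mul hmν ht
          _ = n * ν := mul_comm _ _
      calc L.length * (n * ν) + m * t ≤ L.length * (n * ν) + n * ν := by omega
        _ = (L.length + 1) * (n * ν) := by ring
    · rw [← mul_assoc, ← hF]
      exact hGd t
    · rw [← mul_assoc, ← hF]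
      exact hgood

end

/-- Row FLIP. -/
theorem flip : FlipS := by
  intro H _ _ V E _ ν R R' hcyc hsq hord hp hR1 hR2 hTwo
  have hcomm : ∀ c ∈ E, ∀ d ∈ E, c * d = d * c := by
    intro c hc d hd
    obtain ⟨g, hg⟩ := IsCyclic.exists_generator (α := E)
    obtain ⟨i, hi⟩ := Subgroup.mem_zpowers_iff.1 (hg ⟨c, hc⟩)
    obtain ⟨j, hj⟩ := Subgroup.mem_zpowers_iff.1 (hg ⟨d, hd⟩)
    have h1 : (⟨c, hc⟩ * ⟨d, hd⟩ : E) = ⟨d, hd⟩ * ⟨c, hc⟩ := by
      rw [← hi, ← hj, ← zpow_add, ← zpow_add, add_comm]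
    exact congrArg Subtype.val h1
  obtain ⟨x', y', hxy⟩ := hTwo
  obtain ⟨x, rfl⟩ := QuotientGroup.mk'_surjective E x'
  obtain ⟨y, rfl⟩ := QuotientGroup.mk'_surjective E y'
  set P := (Nat.card E).primeFactors with hP
  set n := 2 * P.card with hn
  obtain ⟨f, f1, f2, f3⟩ := main (E := E) (R' := R') V ν n R hcomm hsq hord
    (fun p hpp => ⟨(hp p hpp).1, by have := (hp p hpp).2.1; omega, (hp p hpp).2.2⟩) ⟨hR1, hR2⟩
    (P.toList.map (fun p => (p, x)) ++ P.toList.map (fun p => (p, y)))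
    (by simp [hn]; omega)
    (by
      intro c hc
      rcases List.mem_append.1 hc with h | h
      · obtain ⟨p, h1, rfl⟩ := List.mem_map.1 h
        exact Finset.mem_toList.1 h1
      · obtain ⟨p, h1, rfl⟩ := List.mem_map.1 h
        exact Finset.mem_toList.1 h1)
  refine ⟨f, ?_, x, y, ?_⟩
  · refine Mv.mono f1 ?_
    have e1 : (P.toList.map (fun p => (p, x)) ++ P.toList.map (fun p => (p, y))).length = n := by
      simp [hn]; omega
    rw [e1]
    calc n * (n * ν) = (n * n) * ν := by ring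
      _ ≤ ((n + 2) ^ 2) * ν := by
        apply Nat.mul_le_mul_right
        nlinarith
  -- the volumes generate `E`
  have gen : ∀ γ : H, (∀ p ∈ P, (vol R' (R * f) γ) ^ (Nat.card E / p) ≠ 1) →
      ∀ z, R'.SameCycle (QuotientGroup.mk' E γ) (QuotientGroup.mk' E z) → (R * f).SameCycle γ z := by
    intro γ hγ z hz
    have hE : 0 < Nat.card E := Nat.card_pos
    have hcard : ∀ c ∈ E, c ^ Nat.card E = 1 := by
      intro c hc
      calc c ^ Nat.card E = (((⟨c, hc⟩ : E) ^ Nat.card E : E) : H) := rfl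
        _ = 1 := by rw [pow_card_eq_one']; rfl
    have hvE := vol_mem f2 γ
    have hord' : orderOf (vol R' (R * f) γ) = Nat.card E := by
      refine orderOf_eq_of_pow_and_pow_div_prime hE (hcard _ hvE) ?_
      intro p hpp hpd
      exact hγ p (Nat.mem_primeFactors.2 ⟨hpp, hpd, hE.ne'⟩)
    have hzp : Subgroup.zpowers (vol R' (R * f) γ) = E := by
      refine Subgroup.eq_of_le_of_card_ge ?_ ?_
      · rw [Subgroup.zpowers_le]
        exact hvE
      · rw [Nat.card_zpowers, hord']
    obtain ⟨i, hi⟩ := hz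
    have h1 : R' ^ i ∈ Subgroup.zpowers R' := ⟨i, rfl⟩
    rw [← mem_powers_iff_mem_zpowers] at h1
    obtain ⟨j, hj⟩ := h1
    have hj' : R' ^ j = R' ^ i := hj
    rw [← hj', ← f2.pow_cov] at hi
    have h2 : z * (((R * f) ^ j) γ)⁻¹ ∈ E := by
      rw [← mk_eq_one, map_mul, map_inv, hi, mul_inv_cancel]
    have h3 : z * (((R * f) ^ j) γ)⁻¹ ∈ Subgroup.zpowers (vol R' (R * f) γ) := by rw [hzp]; exact h2
    rw [← mem_powers_iff_mem_zpowers] at h3
    obtain ⟨k, hk⟩ := h3
    have hk' : (vol R' (R * f) γ) ^ k = z * (((R * f) ^ j) γ)⁻¹ := hk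
    have h4 : ∀ k : ℕ, ((R * f) ^ (ell R' γ * k)) γ = (vol R' (R * f) γ) ^ k * γ := by
      intro k
      induction k with
      | zero => simp
      | succ k ih =>
        rw [Nat.mul_succ, add_comm, pow_add, Equiv.Perm.mul_apply, ih, f2.pow_eq _ _ (E.pow_mem hvE k)]
        have h5 : ((R * f) ^ ell R' γ) γ = vol R' (R * f) γ * γ := by
          unfold vol
          rw [inv_mul_cancel_right]
        rw [h5, ← mul_assoc, ← pow_succ]
    refine ⟨((j + ell R' γ * k : ℕ) : ℤ), ?_⟩
    rw [zpow_natCast, pow_add, Equiv.Perm.mul_apply, h4, f2.pow_eq _ _ (E.pow_mem hvE k), hk', inv_mul_cancel_right]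
  intro z
  rcases hxy (QuotientGroup.mk' E z) with h | h
  · left
    refine gen x ?_ z h
    intro p hpp
    exact f3 (p, x) (List.mem_append_left _ (List.mem_map.2 ⟨p, Finset.mem_toList.2 hpp, rfl⟩))
  · right
    refine gen y ?_ z h
    intro p hpp
    exact f3 (p, y) (List.mem_append_right _ (List.mem_map.2 ⟨p, Finset.mem_toList.2 hpp, rfl⟩))

end Pool.Agent.Lib.MP_688fd0_co.SQ6.Flip
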