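import Mathlib
import Pool.Agent.Lib.MP_688fd0_co.OSF.Iface

/-!
Board B1* (type C2 with two `P`-heights): the letters of `A` are reflections (`eps = -1`) and have at most two heights
modulo `P`. Statements of the rows; proofs: `SQ6/Paper.md`.

`H` is the subgroup generated by the quotients of positive words of equal length in the `b a⁻¹`; the Cayley graph is a cyclic
chain of `L = |ker eps : H|` cells with `|H|` strands. A move multiplies a union `X` of left cosets of `⟨v⟩` by `v` on the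
right.
-/

set_option autoImplicit false

namespace Pool.Agent.Lib.MP_688fd0_co.SQ6

open Pool.Agent.Lib.MP_688fd0_co.OSF

universe u

/-! ### Moves -/

section moves

variable {H : Type u} [Group H]

/-- `X` is a union of left cosets of the group generated by `v`. -/
def Cl (v : H) (X : Set H) : Prop := ∀ x, x * v ∈ X ↔ x ∈ X

open Classical in
/-- Right multiplication by `v` on `X`, identity outside. -/
noncomputable def rot (v : H) (X : Set H) (h : Cl v X) : Equiv.Perm H where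
  toFun x := if x ∈ X then x * v else x
  invFun x := if x ∈ X then x * v⁻¹ else x
  left_inv x := by
    by_cases hx : x ∈ X
    · have h1 : x * v ∈ X := (h x).2 hx
      simp only [if_pos hx, if_pos h1, mul_inv_cancel_right]
    · simp only [if_neg hx]
  right_inv x := by
    by_cases hx : x ∈ X
    · have h1 : x * v⁻¹ ∈ X := by
        rw [← h]
        simpa using hx
      simp only [if_pos hx, if_pos h1, inv_mul_cancel_right]
    · simp only [if_neg hx]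

/-- `f` is a product of at most `n` moves. -/
def Mv (V : Set H) (n : ℕ) (f : Equiv.Perm H) : Prop :=
  ∃ l : List (Equiv.Perm H), l.length ≤ n ∧ (∀ g ∈ l, ∃ v ∈ V, ∃ (X : Set H) (h : Cl v X), g = rot v X h) ∧ l.prod = f

/-- At most two orbits. -/
def Two {α : Type u} (f : Equiv.Perm α) : Prop := ∃ x y, ∀ z, f.SameCycle x z ∨ f.SameCycle y z

/-- `f` is the cycle of `I`-blocks `a j → b j → c j → a j` (`j ∈ I`). -/
structure IsTri (I : Subgroup H) (a b c : H) (f : Equiv.Perm H) : Prop where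
  ab : a⁻¹ * b ∉ I
  bc : b⁻¹ * c ∉ I
  ca : c⁻¹ * a ∉ I
  fa : ∀ j ∈ I, f (a * j) = b * j
  fb : ∀ j ∈ I, f (b * j) = c * j
  fc : ∀ j ∈ I, f (c * j) = a * j
  fx : ∀ x, a⁻¹ * x ∉ I → b⁻¹ * x ∉ I → c⁻¹ * x ∉ I → f x = x

/-- The cycle `a → b → c` of `I`-blocks and its inverse are products of at most `n` moves. -/
def Tri (V : Set H) (n : ℕ) (I : Subgroup H) (a b c : H) : Prop :=
  ∃ f : Equiv.Perm H, IsTri I a b c f ∧ Mv V n f ∧ Mv V n f⁻¹

/-- All cycles of length three on the `I`-blocks with the representatives `Y` are available. -/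
def Full (V : Set H) (n : ℕ) (I : Subgroup H) (Y : Finset H) : Prop :=
  (∀ x ∈ Y, ∀ y ∈ Y, x⁻¹ * y ∈ I → x = y) ∧
    ∀ x ∈ Y, ∀ y ∈ Y, ∀ z ∈ Y, x ≠ y → y ≠ z → z ≠ x → Tri V n I x y z

end moves

/-- Bounds for the numbers of moves. -/
def bdC (ν : ℕ) : ℕ := 2 ^ (50 * (ν + 2))

/-- Bounds for the numbers of moves. -/
def bd (ν r : ℕ) : ℕ := 2 ^ (60 * (ν + r + 2))

/-! ### Local rows -/

/-- COMM: the commutator of two permutations whose supports have exactly one block in common. -/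
def CommS : Prop :=
  ∀ (H : Type) [Group H] (I : Subgroup H) (f g : Equiv.Perm H) (a : H),
    (∀ x, ∀ j ∈ I, f (x * j) = f x * j) → (∀ x, ∀ j ∈ I, g (x * j) = g x * j) →
    (∀ x, f x ≠ x → g x ≠ x → a⁻¹ * x ∈ I) → a⁻¹ * f a ∉ I → a⁻¹ * g a ∉ I →
    IsTri I a (f a) (g a) (f * g * f⁻¹ * g⁻¹)

/-- LOC: the cycles `a → a w_p → a w_m`. -/
def LocS : Prop :=
  ∀ (H : Type) [Group H] [Finite H] (V : Set H) (ν m : ℕ) (w : Fin (m + 2) → H), (∀ i, w i ∈ V) →
    (∀ i, orderOf (w i) ≤ ν) → (∀ p, w p ∉ Subgroup.closure (w '' {q | q ≠ p})) →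
    ∀ p : Fin (m + 2), p ≠ Fin.last (m + 1) → ∀ a : H,
      Tri V (2 ^ (m + 2) * ν) (⨅ q, Subgroup.zpowers (w q)) a (a * w p) (a * w (Fin.last (m + 1)))

/-- QUAD: two cycles with two common blocks. -/
def QuadS : Prop :=
  ∀ (H : Type) [Group H] [DecidableEq H] (V : Set H) (n : ℕ) (I : Subgroup H) (a b c d : H),
    Tri V n I a b d → Tri V n I a c d → b⁻¹ * c ∉ I → Full V (3 * n) I {a, b, c, d}

/-- GROW: one more block. -/
def GrowS : Prop :=
  ∀ (H : Type) [Group H] [DecidableEq H] (V : Set H) (n : ℕ) (I : Subgroup H) (Y : Finset H), Full V n I Y →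
    4 ≤ Y.card → ∀ a ∈ Y, ∀ b c : H, Tri V n I a b c → (∀ y ∈ Y, y⁻¹ * b ∉ I) → Full V (8 * n) I (insert b Y)

/-- COVER: (i) one letter generates `H` modulo `C`, or (ii) two letters whose squares lie in the intersection, or (iii) there is
a full set of representatives of `H / C I`. -/
def CoverS : Prop :=
  ∀ (H : Type) [Group H] [Finite H] (V : Set H) (C : Subgroup H), Subgroup.closure V = ⊤ → C.Normal →
    (∀ v ∈ V, (orderOf v).Coprime (Nat.card C)) →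
    C = ⊤ ∨ (∃ v ∈ V, Subgroup.zpowers v ⊔ C = ⊤) ∨
    (∃ v ∈ V, ∃ w ∈ V, Subgroup.closure {v, w} ⊔ C = ⊤ ∧ v ∉ Subgroup.zpowers w ⊔ C ∧ w ∉ Subgroup.zpowers v ⊔ C ∧
      v ^ 2 ∈ Subgroup.zpowers w ∧ w ^ 2 ∈ Subgroup.zpowers v) ∨
    ∃ (I : Subgroup H) (Y : Finset H) (v : H), v ∈ V ∧ I ≤ Subgroup.zpowers v ∧ (C ⊔ I).Normal ∧
      Full V (2 ^ (40 * (C.index + 2))) I Y ∧ ∀ x : H, ∃ y ∈ Y, y⁻¹ * x ∈ C ⊔ I

/-- ORB: `R₀ τ`, `R₀` right multiplication by a generator of `C`, `τ` a permutation of a transversal. -/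
def OrbS : Prop :=
  ∀ (H : Type) [Group H] [Finite H] (C : Subgroup H) (g : H) (T : Set H) (τ : Equiv.Perm H), C.Normal →
    Subgroup.zpowers g = C → (∀ x, ∃ t ∈ T, t * x⁻¹ ∈ C) → (∀ t ∈ T, ∀ t' ∈ T, t * t'⁻¹ ∈ C → t = t') →
    (∀ x, x ∉ T → τ x = x) →
    (∀ t ∈ T, (Equiv.mulRight g * τ).SameCycle t (τ t)) ∧ ∀ x, ∃ t ∈ T, (Equiv.mulRight g * τ).SameCycle t x

/-- INS: insertion of pairs of blocks into a cycle. -/
def InsS : Prop :=
  ∀ (H : Type) [Group H] [Finite H] (V : Set H) (n : ℕ) (I : Subgroup H) (v a : H) (e : ℕ) (y : Fin (2 * e) → H),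
    v ∈ V → I ≤ Subgroup.zpowers v →
    (∀ i, a⁻¹ * y i ∉ Subgroup.zpowers v) → (∀ i j, (y i)⁻¹ * y j ∈ I → i = j) →
    (∀ i j, i ≠ j → Tri V n I a (y i) (y j)) →
    ∃ f : Equiv.Perm H, Mv V (e * n + 1) f ∧
      (∀ x, a⁻¹ * x ∉ Subgroup.zpowers v → (∀ i, (y i)⁻¹ * x ∉ I) → f x = x) ∧
      (∀ x, a⁻¹ * x ∈ Subgroup.zpowers v ∨ (∃ i, (y i)⁻¹ * x ∈ I) → f.SameCycle a x)

/-- DIH: the case (ii) of COVER. -/
def DihS : Prop :=
  ∀ (H : Type) [Group H] [Finite H] (V : Set H) (C : Subgroup H) (g v w : H), C.Normal → Subgroup.zpowers g = C →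
    (∀ v ∈ V, (orderOf v).Coprime (Nat.card C)) → v ∈ V → w ∈ V → Subgroup.closure {v, w} ⊔ C = ⊤ →
    v ∉ Subgroup.zpowers w ⊔ C → w ∉ Subgroup.zpowers v ⊔ C → v ^ 2 ∈ Subgroup.zpowers w →
    w ^ 2 ∈ Subgroup.zpowers v → ∃ f, Mv V (bdC C.index) f ∧ Two (Equiv.mulRight g * f)

/-- MERGC: one or two orbits if no order of a letter has a common factor with the order of `C` (uses COVER, ORB, INS, DIH). -/
def MergCS : Prop :=
  ∀ (H : Type) [Group H] [Finite H] (V : Set H) (C : Subgroup H) (g : H), Subgroup.closure V = ⊤ → C.Normal →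
    Subgroup.zpowers g = C → (∀ v ∈ V, (orderOf v).Coprime (Nat.card C)) →
    ∃ f, Mv V (bdC C.index) f ∧ Two (Equiv.mulRight g * f)

/-- GEN: a short word `l` such that `l.prod ω` generates `C`. -/
def GenS : Prop :=
  ∀ (H : Type) [Group H] [Finite H] (V : Set H) (C : Subgroup H) (ω : H), Subgroup.closure V = ⊤ → C.Normal →
    IsCyclic C → Squarefree (Nat.card C) →
    (∀ p ∈ (Nat.card C).primeFactors, (Nat.card C).primeFactors.card + 1 < p) →
    ∃ l : List H, (∀ v ∈ l, v ∈ V) ∧ l.length ≤ ((Nat.card C).primeFactors.card + 2) ^ 2 * (3 * C.index + 3) ∧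
      Subgroup.zpowers (l.prod * ω) = C

/-- FLIP: from `H / E` to `H`. -/
def FlipS : Prop :=
  ∀ (H : Type) [Group H] [Finite H] (V : Set H) (E : Subgroup H) (_ : E.Normal) (ν : ℕ) (R : Equiv.Perm H)
    (R' : Equiv.Perm (H ⧸ E)), IsCyclic E → Squarefree (Nat.card E) →
    (∀ v ∈ V, orderOf (QuotientGroup.mk' E v) ≤ ν) →
    (∀ p ∈ (Nat.card E).primeFactors, ν < p ∧ 2 * (Nat.card E).primeFactors.card + 2 < p ∧ ∃ v ∈ V, p ∣ orderOf v) →
    (∀ c ∈ E, ∀ x, R (c * x) = c * R x) → (∀ x, QuotientGroup.mk' E (R x) = R' (QuotientGroup.mk' E x)) → Two R' →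
    ∃ f, Mv V ((2 * (Nat.card E).primeFactors.card + 2) ^ 2 * ν) f ∧ Two (R * f)

/-- MERGE: the strands of a chain (uses MERGC, GEN, FLIP). -/
def MergeS : Prop :=
  ∀ (H : Type) [Group H] [Finite H] (V : Set H) (C : Subgroup H) (ω : H), Subgroup.closure V = ⊤ → C.Normal →
    IsCyclic C → Squarefree (Nat.card C) → (Nat.card C).Coprime C.index →
    (∀ p ∈ (Nat.card C).primeFactors, C.index < p ∧ 2 * (Nat.card C).primeFactors.card + 2 < p) →
    ∃ f, Mv V (bd C.index (Nat.card C).primeFactors.card) f ∧ Two (Equiv.mulRight ω * f)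

/-! ### Cells -/

/-- LST: a permutation with at most two orbits, each point moved by a letter. -/
def LstS : Prop :=
  ∀ (G : Type) [Group G] [Finite G] (A : Set G) (Φ : Equiv.Perm G), (∀ x ∈ A, x⁻¹ ∈ A) → Subgroup.closure A = ⊤ →
    (∀ x, x⁻¹ * Φ x ∈ A) → Two Φ → Lst A

/-- EUL: an Eulerian circuit of the Cayley digraph of `K` with the labels `Λ`. -/
def EulS : Prop :=
  ∀ (K : Type) [Group K] [Finite K] (Λ : Type) [Finite Λ] (q : Λ → K), Nonempty Λ →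
    Subgroup.closure (Set.range q) = ⊤ →
    ∃ l : List Λ, l.length = Nat.card K * Nat.card Λ ∧ (l.map q).prod = 1 ∧
      ∀ (x : K) (s : Λ), ∃ i, ∃ h : i < l.length, l[i] = s ∧ ((l.take i).map q).prod = x

/-- CEN: the product of an Eulerian circuit of `Γ / N` is central if `N` is abelian. -/
def CenS : Prop :=
  ∀ (Γ : Type) [Group Γ] [Finite Γ] (N : Subgroup Γ) (_ : N.Normal) (Λ : Type) [Finite Λ] (q : Λ → Γ) (l : List Λ),
    (∀ x ∈ N, ∀ y ∈ N, x * y = y * x) → l.length = Nat.card (Γ ⧸ N) * Nat.card Λ →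
    (l.map (fun s => QuotientGroup.mk' N (q s))).prod = 1 →
    (∀ (x : Γ ⧸ N) (s : Λ), ∃ i, ∃ h : i < l.length, l[i] = s ∧
      ((l.take i).map (fun s => QuotientGroup.mk' N (q s))).prod = x) →
    (l.map q).prod ∈ N ∧ ∀ x, x * (l.map q).prod = (l.map q).prod * x

/-- `ψ (n - 1) ⋯ ψ 1 ψ 0` -/
def comp {G : Type u} (ψ : ℕ → Equiv.Perm G) : ℕ → Equiv.Perm G
  | 0 => 1
  | n + 1 => ψ n * comp ψ n

/-- TOWER: a permutation which goes from the level `i` to the level `i + 1` by `ψ i`. -/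
def TowerS : Prop :=
  ∀ (G : Type) [Finite G] (m : ℕ) (_ : NeZero m) (lev : G → ZMod m) (ψ : ℕ → Equiv.Perm G),
    (∀ i, i < m → ∀ x, lev x = i → lev (ψ i x) = i + 1) →
    ∃ Φ : Equiv.Perm G, (∀ i, i < m → ∀ x, lev x = i → Φ x = ψ i x) ∧
      ∀ x y, lev x = 0 → lev y = 0 →
        (∀ z, lev z = 0 → (comp ψ m).SameCycle x z ∨ (comp ψ m).SameCycle y z) → Two Φ

/-- CELL: the chain of cells (uses LST, EUL, CEN, TOWER). -/
def CellS : Prop :=
  ∀ (G : Type) [Group G] [Finite G] (A₀ A₁ : Set G) (eps : G →* ℤˣ) (N : Subgroup G), A₀.Nonempty → A₁.Nonempty →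
    (∀ a ∈ A₀, a⁻¹ ∈ A₀) → (∀ a ∈ A₁, a⁻¹ ∈ A₁) → (∀ a ∈ A₀, eps a = -1) → (∀ a ∈ A₁, eps a = -1) →
    Subgroup.closure (A₀ ∪ A₁) = ⊤ → N.Normal → N ≤ eps.ker → (∀ x ∈ N, ∀ y ∈ N, x * y = y * x) →
    ∃ (H : Subgroup G) (V : Set H) (ω : H), Subgroup.closure V = ⊤ ∧ H ≤ eps.ker ∧
      (∀ M : Subgroup G, M.Normal → (∀ a ∈ A₀, ∀ a' ∈ A₀, a * a'⁻¹ ∈ M) → (∀ b ∈ A₁, ∀ b' ∈ A₁, b * b'⁻¹ ∈ M) →
        H ≤ M) ∧
      ∀ (n : ℕ) (f : Equiv.Perm H), n * (N.index * (Nat.card A₀ * Nat.card A₁)) ≤ H.index → Mv V n f →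
        Two (Equiv.mulRight ω * f) → Lst (A₀ ∪ A₁)

end Pool.Agent.Lib.MP_688fd0_co.SQ6
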