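import Pool.Agent.Lib.MP_688fd0_co.SQ3.Iface
import Pool.Agent.Lib.MP_688fd0_co.SQ6.Iface

/-!
Board B1* (type C2 with two `P`-heights): the theorem about the groups of the structure `GN`.
-/

set_option autoImplicit false

namespace Pool.Agent.Lib.MP_688fd0_co.SQ6

open Pool.Agent.Lib.MP_688fd0_co.OSF Pool.Agent.Lib.MP_688fd0_co.SQ3

/-- PART: the elements of `ker eps` whose order is not divisible by `P` form a normal subgroup. -/
def PartS : Prop :=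
  ∀ (G : Type) [Group G] [Finite G] (N C : Subgroup G) (eps : G →* ℤˣ) (k P : ℕ), GN N C eps k P → P ≠ 2 →
    (∃ M : Subgroup G, M.Normal ∧ ∀ x, x ∈ M ↔ eps x = 1 ∧ ¬ P ∣ orderOf x) ∧
      ∀ x, eps x = -1 → ¬ P ∣ orderOf x

/-- TWOH: two `P`-heights (uses MERGE, CELL, PART, SMALLGEN2). -/
def TwoHS : Prop :=
  ∃ c₀ : ℕ, ∀ (G : Type) [Group G] [Finite G] (N C : Subgroup G) (eps : G →* ℤˣ) (k P : ℕ) (A : Set G),
    GN N C eps k P → (∀ x ∈ A, x⁻¹ ∈ A) → Subgroup.closure A = ⊤ → (∀ a ∈ A, eps a = -1) →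
    (∃ a ∈ A, ∃ b ∈ A, ∀ s ∈ A, ¬ P ∣ orderOf (s * a⁻¹) ∨ ¬ P ∣ orderOf (s * b⁻¹)) →
    2 ^ ((k + (Nat.card G).primeFactorsList.length) ^ c₀) ≤ P → Lst A

end Pool.Agent.Lib.MP_688fd0_co.SQ6
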