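import Pool.Agent.Lib.MP_688fd0_co.SQ6.Iface

/-!
Row QUAD: two cycles of blocks with two common blocks give all eight cycles on the four blocks.
-/

set_option autoImplicit false

namespace Pool.Agent.Lib.MP_688fd0_co.SQ6.Quad

open Pool.Agent.Lib.MP_688fd0_co.SQ6

universe u

variable {H : Type u} [Group H] {I : Subgroup H} {V : Set H}

theorem Mv.mul {n m : ℕ} {f g : Equiv.Perm H} (hf : Mv V n f) (hg : Mv V m g) : Mv V (n + m) (f * g) := by
  obtain ⟨l, h1, h2, h3⟩ := hf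
  obtain ⟨l', h1', h2', h3'⟩ := hg
  refine ⟨l ++ l', ?_, ?_, ?_⟩
  · rw [List.length_append]; omega
  · intro x hx
    rcases List.mem_append.1 hx with h | h
    · exact h2 x h
    · exact h2' x h
  · rw [List.prod_append, h3, h3']

theorem Mv.mono {n m : ℕ} {f : Equiv.Perm H} (hf : Mv V n f) (h : n ≤ m) : Mv V m f := by
  obtain ⟨l, h1, h2, h3⟩ := hf
  exact ⟨l, h1.trans h, h2, h3⟩

theorem isTri_rot {a b c : H} {f : Equiv.Perm H} (h : IsTri I a b c f) : IsTri I b c a f where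
  ab := h.bc
  bc := h.ca
  ca := h.ab
  fa := h.fb
  fb := h.fc
  fc := h.fa
  fx := fun x h1 h2 h3 => h.fx x h3 h1 h2

theorem notMem_symm {a b : H} (h : a⁻¹ * b ∉ I) : b⁻¹ * a ∉ I := fun h' => h (by
  have := I.inv_mem h'
  rwa [mul_inv_rev, inv_inv] at this)

theorem isTri_inv {a b c : H} {f : Equiv.Perm H} (h : IsTri I a b c f) : IsTri I a c b f⁻¹ where
  ab := notMem_symm h.ca
  bc := notMem_symm h.bc
  ca := notMem_symm h.ab
  fa := fun j hj => by rw [Equiv.Perm.inv_eq_iff_eq, h.fc j hj]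
  fb := fun j hj => by rw [Equiv.Perm.inv_eq_iff_eq, h.fb j hj]
  fc := fun j hj => by rw [Equiv.Perm.inv_eq_iff_eq, h.fa j hj]
  fx := fun x h1 h2 h3 => by rw [Equiv.Perm.inv_eq_iff_eq, h.fx x h1 h3 h2]

theorem isTri_conj {a b c a' b' c' : H} {f g : Equiv.Perm H} (h : IsTri I a b c f)
    (ga : ∀ j ∈ I, g (a * j) = a' * j) (gb : ∀ j ∈ I, g (b * j) = b' * j) (gc : ∀ j ∈ I, g (c * j) = c' * j)
    (ab : a'⁻¹ * b' ∉ I) (bc : b'⁻¹ * c' ∉ I) (ca : c'⁻¹ * a' ∉ I) : IsTri I a' b' c' (g * f * g⁻¹) := by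
  have ia : ∀ j ∈ I, g⁻¹ (a' * j) = a * j := fun j hj => by rw [Equiv.Perm.inv_eq_iff_eq, ga j hj]
  have ib : ∀ j ∈ I, g⁻¹ (b' * j) = b * j := fun j hj => by rw [Equiv.Perm.inv_eq_iff_eq, gb j hj]
  have ic : ∀ j ∈ I, g⁻¹ (c' * j) = c * j := fun j hj => by rw [Equiv.Perm.inv_eq_iff_eq, gc j hj]
  have gg : ∀ x, g (g⁻¹ x) = x := fun x => Equiv.apply_symm_apply g x
  refine ⟨ab, bc, ca, ?_, ?_, ?_, ?_⟩
  · intro j hj
    rw [Equiv.Perm.mul_apply, Equiv.Perm.mul_apply, ia j hj, h.fa j hj, gb j hj]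
  · intro j hj
    rw [Equiv.Perm.mul_apply, Equiv.Perm.mul_apply, ib j hj, h.fb j hj, gc j hj]
  · intro j hj
    rw [Equiv.Perm.mul_apply, Equiv.Perm.mul_apply, ic j hj, h.fc j hj, ga j hj]
  · intro x h1 h2 h3
    have key : ∀ {p p' : H}, (∀ j ∈ I, g (p * j) = p' * j) → p'⁻¹ * x ∉ I → p⁻¹ * g⁻¹ x ∉ I := by
      intro p p' hp hx hI
      apply hx
      have := hp _ hI
      rw [mul_inv_cancel_left, gg] at this
      rw [this, inv_mul_cancel_left]
      exact hI
    rw [Equiv.Perm.mul_apply, Equiv.Perm.mul_apply, h.fx _ (key ga h1) (key gb h2) (key gc h3),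
      gg]

theorem tri_rot {n : ℕ} {a b c : H} (h : Tri V n I a b c) : Tri V n I b c a := by
  obtain ⟨f, h1, h2, h3⟩ := h
  exact ⟨f, isTri_rot h1, h2, h3⟩

theorem tri_inv {n : ℕ} {a b c : H} (h : Tri V n I a b c) : Tri V n I a c b := by
  obtain ⟨f, h1, h2, h3⟩ := h
  exact ⟨f⁻¹, isTri_inv h1, h3, by rwa [inv_inv]⟩

theorem tri_mono {n m : ℕ} {a b c : H} (h : Tri V n I a b c) (hm : n ≤ m) : Tri V m I a b c := by
  obtain ⟨f, h1, h2, h3⟩ := h
  exact ⟨f, h1, Mv.mono h2 hm, Mv.mono h3 hm⟩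

/-- Conjugation of the cycle `a → b → c` by a permutation `g`. -/
theorem tri_conj {n m : ℕ} {a b c a' b' c' : H} (h : Tri V n I a b c) {g : Equiv.Perm H} (hg : Mv V m g)
    (hg' : Mv V m g⁻¹)
    (ga : ∀ j ∈ I, g (a * j) = a' * j) (gb : ∀ j ∈ I, g (b * j) = b' * j) (gc : ∀ j ∈ I, g (c * j) = c' * j)
    (ab : a'⁻¹ * b' ∉ I) (bc : b'⁻¹ * c' ∉ I) (ca : c'⁻¹ * a' ∉ I) : Tri V (n + 2 * m) I a' b' c' := by
  obtain ⟨f, h1, h2, h3⟩ := h
  refine ⟨g * f * g⁻¹, isTri_conj h1 ga gb gc ab bc ca, ?_, ?_⟩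
  · exact Mv.mono (Mv.mul (Mv.mul hg h2) hg') (by omega)
  · have e : (g * f * g⁻¹)⁻¹ = g * f⁻¹ * g⁻¹ := by group
    rw [e]
    exact Mv.mono (Mv.mul (Mv.mul hg h3) hg') (by omega)

theorem blk_notMem {a x : H} {j : H} (hj : j ∈ I) (h : a⁻¹ * x ∉ I) : a⁻¹ * (x * j) ∉ I := by
  intro h'
  apply h
  have := I.mul_mem h' (I.inv_mem hj)
  rwa [mul_assoc, mul_assoc, mul_inv_cancel, mul_one] at this

/-- Row QUAD. -/
theorem quad : QuadS := by
  classical
  intro H _ _ V n I a b c d h1 h2 hbc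
  obtain ⟨f, f1, f2, f3⟩ := id h1
  obtain ⟨g, g1, g2, g3⟩ := id h2
  -- the blocks are different
  have nab := f1.ab
  have nbd := f1.bc
  have nda := f1.ca
  have nac := g1.ab
  have ncd := g1.bc
  have gb : ∀ j ∈ I, g (b * j) = b * j := fun j hj =>
    g1.fx _ (blk_notMem hj nab) (blk_notMem hj (notMem_symm hbc)) (blk_notMem hj (notMem_symm nbd))
  -- `a → b → c`
  have h3 : Tri V (3 * n) I a b c := by
    -- `g f⁻¹ g⁻¹`: `a → d → b` is conjugated to `c → a → b`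
    have := tri_conj (tri_inv h1) (g := g) g2 g3 g1.fa g1.fc gb (notMem_symm nac) nab hbc
    exact tri_rot (tri_mono this (by omega))
  -- `b → c → d`
  have h4 : Tri V (3 * n) I b c d := by
    -- `g⁻¹ f g`: `a → b → d` is conjugated to `d → b → c`
    have gi := isTri_inv g1
    have gbi : ∀ j ∈ I, g⁻¹ (b * j) = b * j := fun j hj => by
      rw [Equiv.Perm.inv_eq_iff_eq, gb j hj]
    have := tri_conj h1 (g := g⁻¹) g3 (by rwa [inv_inv]) gi.fa gbi gi.fb (notMem_symm nbd) hbc ncd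
    exact tri_rot (tri_mono this (by omega))
  have h1' : Tri V (3 * n) I a b d := tri_mono h1 (by omega)
  have h2' : Tri V (3 * n) I a c d := tri_mono h2 (by omega)
  refine ⟨?_, ?_⟩
  · intro x hx y hy hxy
    simp only [Finset.mem_insert, Finset.mem_singleton] at hx hy
    rcases hx with rfl | rfl | rfl | rfl <;> rcases hy with rfl | rfl | rfl | rfl <;>
      first
        | rfl
        | exact absurd hxy nab
        | exact absurd hxy (notMem_symm nab)
        | exact absurd hxy nbd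
        | exact absurd hxy (notMem_symm nbd)
        | exact absurd hxy nda
        | exact absurd hxy (notMem_symm nda)
        | exact absurd hxy nac
        | exact absurd hxy (notMem_symm nac)
        | exact absurd hxy ncd
        | exact absurd hxy (notMem_symm ncd)
        | exact absurd hxy hbc
        | exact absurd hxy (notMem_symm hbc)
  · intro x hx y hy z hz n1 n2 n3
    simp only [Finset.mem_insert, Finset.mem_singleton] at hx hy hz
    have all : ∀ {p q r : H}, Tri V (3 * n) I p q r → Tri V (3 * n) I p q r ∧ Tri V (3 * n) I q r p ∧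
        Tri V (3 * n) I r p q ∧ Tri V (3 * n) I p r q ∧ Tri V (3 * n) I r q p ∧ Tri V (3 * n) I q p r :=
      fun h => ⟨h, tri_rot h, tri_rot (tri_rot h), tri_inv h, tri_rot (tri_inv h), tri_rot (tri_rot (tri_inv h))⟩
    obtain ⟨a1, a2, a3, a4, a5, a6⟩ := all h1'
    obtain ⟨b1, b2, b3, b4, b5, b6⟩ := all h2'
    obtain ⟨c1, c2, c3, c4, c5, c6⟩ := all h3
    obtain ⟨d1, d2, d3, d4, d5, d6⟩ := all h4
    rcases hx with rfl | rfl | rfl | rfl <;> rcases hy with rfl | rfl | rfl | rfl <;>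
      rcases hz with rfl | rfl | rfl | rfl <;>
      first
        | exact absurd rfl n1
        | exact absurd rfl n2
        | exact absurd rfl n3
        | assumption

end Pool.Agent.Lib.MP_688fd0_co.SQ6.Quad
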